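import Pool.Agent.Helper12.E4.Basic
import Pool.Agent.Helper71.E4.Count1
import Pool.Agent.Helper71.E4.Count2

/-! Out-degrees of the tournament. -/

namespace E4

open Finset

theorem c3_split {D t μ : ℕ} (P : VV D t μ → Prop) :
    Nat.card {w : VV D t μ // P w} = Nat.card {x : KV D t μ // P (Sum.inl x)} +
      (Nat.card {q : PV D μ // P (Sum.inr (Sum.inl q))} +
        Nat.card {z : ZV D μ // P (Sum.inr (Sum.inr z))}) := by
  rw [Nat.card_congr (Equiv.subtypeSum (p := P)), Nat.card_sum,
    Nat.card_congr (Equiv.subtypeSum (p := fun b => P (Sum.inr b))), Nat.card_sum]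

theorem c3_card_filter {α : Type} [Fintype α] (P : α → Prop) [DecidablePred P] :
    Nat.card {x : α // P x} = ∑ x : α, if P x then 1 else 0 := by
  rw [Nat.card_eq_fintype_card, Fintype.card_subtype, Finset.card_filter]

theorem c3_range (N : ℕ) (P : ℕ → Prop) [DecidablePred P] :
    (∑ x : Fin N, if P x.val then 1 else 0) = ((Finset.range N).filter P).card := by
  rw [Finset.card_filter, Finset.sum_range]

theorem c3_card_fin (N : ℕ) (P : ℕ → Prop) [DecidablePred P] :
    Nat.card {x : Fin N // P x.val} = ((Finset.range N).filter P).card := by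
  rw [c3_card_filter, c3_range]

theorem c3_lexW_irrefl {D : ℕ} (w : Wd D) : ¬ lexW w w := by
  rintro ⟨i, hi, -⟩
  exact M_irrefl _ hi

theorem c3_KV (D t μ : ℕ) (x : KV D t μ) :
    Nat.card {y : KV D t μ // TT D t μ (Sum.inl x) (Sum.inl y)} =
      ((Finset.range (2 * t)).filter (fun b => par x.1.val b)).card * (30 ^ D * μ) +
      (Nat.card {w' : Wd D // lexW x.2.1 w'} * μ +
        ((Finset.range μ).filter (fun b => par x.2.2.val b)).card) := by
  classical
  obtain ⟨a, w, i⟩ := x
  have h1 : ∀ y : KV D t μ, TT D t μ (Sum.inl (a, w, i)) (Sum.inl y) ↔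
      (par a y.1 ∨ (a = y.1 ∧ (lexW w y.2.1 ∨ (w = y.2.1 ∧ par i y.2.2)))) := fun y => Iff.rfl
  rw [Nat.card_congr (Equiv.subtypeEquivRight h1), c3_card_filter, Fintype.sum_prod_type]
  have h2 : ∀ a' : Fin (2 * t), (∑ y : Wd D × Fin μ,
      if (par a a' ∨ (a = a' ∧ (lexW w y.1 ∨ (w = y.1 ∧ par i y.2)))) then 1 else 0) =
      (if par a a' then 1 else 0) * (30 ^ D * μ) +
      (if a = a' then (∑ y : Wd D × Fin μ, if (lexW w y.1 ∨ (w = y.1 ∧ par i y.2)) then 1 else 0)
        else 0) := by
    intro a'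
    by_cases h3 : par a a'
    · have h4 : a ≠ a' := by
        intro h5
        rw [h5] at h3
        exact par_irrefl _ h3
      simp only [h3, true_or, if_true, if_neg h4, one_mul, add_zero]
      simp [Wd]
    · by_cases h4 : a = a'
      · subst h4
        simp only [h3, false_or, true_and, if_true, if_false, zero_mul, zero_add]
      · simp [h3, h4]
  simp only [h2]
  rw [Finset.sum_add_distrib, ← Finset.sum_mul, c3_range (2 * t) (fun b => par a.val b),
    Finset.sum_ite_eq, if_pos (Finset.mem_univ _)]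
  congr 1
  rw [Fintype.sum_prod_type]
  have h3 : ∀ w' : Wd D, (∑ y : Fin μ, if (lexW w w' ∨ (w = w' ∧ par i y)) then 1 else 0) =
      (if lexW w w' then 1 else 0) * μ +
      (if w = w' then (∑ y : Fin μ, if par i y then 1 else 0) else 0) := by
    intro w'
    by_cases h4 : lexW w w'
    · have h5 : w ≠ w' := by
        intro h6
        rw [h6] at h4
        exact c3_lexW_irrefl _ h4
      simp only [h4, true_or, if_true, if_neg h5, one_mul, add_zero]
      simp
    · by_cases h5 : w = w'
      · subst h5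
        simp only [h4, false_or, true_and, if_true, if_false, zero_mul, zero_add]
      · simp [h4, h5]
  simp only [h3]
  rw [Finset.sum_add_distrib, ← Finset.sum_mul, Finset.sum_ite_eq, if_pos (Finset.mem_univ _),
    c3_range μ (fun b => par i.val b), c3_card_filter]

theorem c3_range_succ (n : ℕ) (P : ℕ → Prop) [DecidablePred P] :
    ((Finset.range (n + 1)).filter P).card =
      ((Finset.range n).filter P).card + (if P n then 1 else 0) := by
  rw [Finset.card_filter, Finset.card_filter, Finset.sum_range_succ]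

theorem c3_card_const {α : Type} [Fintype α] (p : Prop) [Decidable p] :
    Nat.card {_x : α // p} = (if p then 1 else 0) * Fintype.card α := by
  classical
  rw [c3_card_filter]
  by_cases h : p
  · simp [h]
  · simp [h]

theorem outDeg_K (D t μ : ℕ) (hμ : μ % 2 = 1) (x : KV D t μ) :
    2 * outDeg (TT D t μ) (Sum.inl x) + 1 = ((2 * t + 1) * 30 ^ D + 27 * S30 D) * μ := by
  unfold outDeg
  rw [c3_split, c3_KV]
  have h1 : Nat.card {q : PV D μ // TT D t μ (Sum.inl x) (Sum.inr (Sum.inl q))} =
      (if par x.1.val (2 * t) then 1 else 0) * (30 ^ D * μ) := by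
    have h2 : Nat.card {q : PV D μ // TT D t μ (Sum.inl x) (Sum.inr (Sum.inl q))} =
        Nat.card {_q : PV D μ // par x.1.val (2 * t)} := rfl
    rw [h2, c3_card_const, Fintype.card_fin]
  have h2 : Nat.card {z : ZV D μ // TT D t μ (Sum.inl x) (Sum.inr (Sum.inr z))} =
      (∑ h : Fin D, tau (x.2.1 h) * 30 ^ h.val) * μ := relZ_count t x.1 μ x.2.1
  rw [h1, h2, lexW_count]
  have h3 := par_out_odd (2 * t + 1) x.1.val (by omega) (by omega)
  rw [c3_range_succ] at h3
  have h4 := par_out_odd μ x.2.2.val x.2.2.isLt hμ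
  have h5 : (∑ h : Fin D, (Finset.univ.filter (fun c' => M (x.2.1 h) c')).card * 30 ^ h.val) +
      (∑ h : Fin D, tau (x.2.1 h) * 30 ^ h.val) = 28 * S30 D := by
    rw [← Finset.sum_add_distrib, ← S30_fin, Finset.mul_sum]
    apply Finset.sum_congr rfl
    intro h _
    rw [← add_mul, M_deg]
  have h6 := S30_eq D
  set A := ((Finset.range (2 * t)).filter (fun b => par x.1.val b)).card
  set B := (if par x.1.val (2 * t) then 1 else 0)
  set c := ((Finset.range μ).filter (fun b => par x.2.2.val b)).card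
  set LW := (∑ h : Fin D, (Finset.univ.filter (fun c' => M (x.2.1 h) c')).card * 30 ^ h.val)
  set RZ := (∑ h : Fin D, tau (x.2.1 h) * 30 ^ h.val)
  have h7 : A + B = t := by omega
  have h8 : 2 * (A * (30 ^ D * μ) + (LW * μ + c) + (B * (30 ^ D * μ) + RZ * μ)) + 1 =
      2 * (A + B) * (30 ^ D * μ) + 2 * (LW + RZ) * μ + (2 * c + 1) := by ring
  rw [h8, h7, h5, ← h4, ← h6]
  ring

theorem c3_nu {D μ : ℕ} (P : ℕ → Prop) [DecidablePred P] :
    Nat.card {z : ZV D μ // P (nu z)} =
      ((Finset.range (27 * S30 D * μ)).filter P).card := by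
  rw [← card_ZV, ← c3_card_fin]
  exact Nat.card_congr ((Fintype.equivFin (ZV D μ)).subtypeEquiv (fun z => Iff.rfl))

theorem c3_parity (n q : ℕ) :
    n ≤ 2 * ((Finset.range n).filter (fun b => (q + b) % 2 = 0)).card + 1 ∧
    n ≤ 2 * ((Finset.range n).filter (fun b => ¬ (q + b) % 2 = 0)).card + 1 := by
  have h : (((Finset.range n).filter (fun b => (q + b) % 2 = 0)).card : ℤ) -
      (((Finset.range n).filter (fun b => ¬ (q + b) % 2 = 0)).card : ℤ) =
      if n % 2 = 0 then 0 else (if q % 2 = 0 then 1 else -1) := by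
    induction n with
    | zero => simp
    | succ n ih =>
      rw [c3_range_succ, c3_range_succ]
      push_cast
      split_ifs at ih ⊢ <;> omega
  have h2 := Finset.card_filter_add_card_filter_not (s := Finset.range n)
    (fun b => (q + b) % 2 = 0)
  rw [Finset.card_range] at h2
  split_ifs at h <;> omega

theorem outDeg_P (D t μ : ℕ) (q : PV D μ) :
    ((2 * t + 1) * 30 ^ D + 27 * S30 D) * μ ≤ 2 * outDeg (TT D t μ) (Sum.inr (Sum.inl q)) + 3 := by
  unfold outDeg
  rw [c3_split]
  have h1 : Nat.card {x : KV D t μ // TT D t μ (Sum.inr (Sum.inl q)) (Sum.inl x)} =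
      t * (30 ^ D * μ) := by
    classical
    have h2 : ∀ x : KV D t μ, TT D t μ (Sum.inr (Sum.inl q)) (Sum.inl x) ↔ par (2 * t) x.1.val :=
      fun x => Iff.rfl
    rw [Nat.card_congr (Equiv.subtypeEquivRight h2), c3_card_filter, Fintype.sum_prod_type]
    have h5 : ∀ a' : Fin (2 * t), (∑ _y : Wd D × Fin μ, if par (2 * t) a'.val then 1 else 0) =
        (if par (2 * t) a'.val then 1 else 0) * (30 ^ D * μ) := by
      intro a'
      by_cases h6 : par (2 * t) a'.val
      · simp [h6, Wd]
      · simp [h6]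
    simp only [h5]
    rw [← Finset.sum_mul, c3_range (2 * t) (fun b => par (2 * t) b)]
    have h3 := par_out_odd (2 * t + 1) (2 * t) (by omega) (by omega)
    rw [c3_range_succ, if_neg (par_irrefl _)] at h3
    have h4 : ((Finset.range (2 * t)).filter (fun b => par (2 * t) b)).card = t := by omega
    rw [h4]
  have h2 : Nat.card {q' : PV D μ // TT D t μ (Sum.inr (Sum.inl q)) (Sum.inr (Sum.inl q'))} =
      ((Finset.range (30 ^ D * μ)).filter (fun b => par q.val b)).card :=
    c3_card_fin (30 ^ D * μ) (fun b => par q.val b)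
  have h3 : Nat.card {z : ZV D μ // TT D t μ (Sum.inr (Sum.inl q)) (Sum.inr (Sum.inr z))} =
      ((Finset.range (27 * S30 D * μ)).filter (fun b => (q.val + b) % 2 = 0)).card :=
    c3_nu (fun b => (q.val + b) % 2 = 0)
  rw [h1, h2, h3]
  have h4 := par_out (30 ^ D * μ) q.val q.isLt
  have h5 := (c3_parity (27 * S30 D * μ) q.val).1
  have h6 : ((2 * t + 1) * 30 ^ D + 27 * S30 D) * μ =
      2 * (t * (30 ^ D * μ)) + 30 ^ D * μ + 27 * S30 D * μ := by ring
  rw [h6]
  omega

theorem outDeg_Z (D t μ : ℕ) (z : ZV D μ) :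
    ((2 * t + 1) * 30 ^ D + 27 * S30 D) * μ ≤ 2 * outDeg (TT D t μ) (Sum.inr (Sum.inr z)) + 3 := by
  unfold outDeg
  rw [c3_split]
  have h1 : Nat.card {x : KV D t μ // TT D t μ (Sum.inr (Sum.inr z)) (Sum.inl x)} =
      t * 30 ^ D * μ := relZ_bal t μ z.1 z.2.1
  have h2 : Nat.card {q : PV D μ // TT D t μ (Sum.inr (Sum.inr z)) (Sum.inr (Sum.inl q))} =
      ((Finset.range (30 ^ D * μ)).filter (fun b => ¬ (nu z + b) % 2 = 0)).card := by
    rw [← c3_card_fin]
    refine Nat.card_congr (Equiv.subtypeEquivRight (fun q => ?_))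
    show ¬ (q.val + nu z) % 2 = 0 ↔ ¬ (nu z + q.val) % 2 = 0
    rw [add_comm]
  have h3 : Nat.card {z' : ZV D μ // TT D t μ (Sum.inr (Sum.inr z)) (Sum.inr (Sum.inr z'))} =
      ((Finset.range (27 * S30 D * μ)).filter (fun b => par (nu z) b)).card :=
    c3_nu (fun b => par (nu z) b)
  rw [h1, h2, h3]
  have hz : nu z < 27 * S30 D * μ := by
    rw [← card_ZV]
    exact (Fintype.equivFin (ZV D μ) z).isLt
  have h4 := par_out (27 * S30 D * μ) (nu z) hz
  have h5 := (c3_parity (30 ^ D * μ) (nu z)).2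
  have h6 : ((2 * t + 1) * 30 ^ D + 27 * S30 D) * μ =
      2 * (t * 30 ^ D * μ) + 30 ^ D * μ + 27 * S30 D * μ := by ring
  rw [h6]
  omega

end E4
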